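import Pool.Agent.Lib.Pfc1499.Defs

/-!
# Module Bary of MP_fc1499_an: fine partitions of unity of a given order

Instead of iterating barycentric subdivisions we use the Freudenthal triangulation of mesh `1/N` in
the cumulative coordinates `c_j = w_0 + ... + w_{j-1}`: the weight of the lattice vertex `z` is the
length of the set of all `θ ∈ [0,1)` with `⌊N c_j + θ⌋ = z_j` for all `j`.
-/

namespace Pfc1499

open MeasureTheory Filter Topology
open scoped BigOperators

noncomputable section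

namespace Bary

/-- extension by zero -/
def ex {V : ℕ} (w : Fin V → ℝ) (i : ℕ) : ℝ := if h : i < V then w ⟨i, h⟩ else 0

/-- cumulative sums -/
def cum {V : ℕ} (w : Fin V → ℝ) (j : ℕ) : ℝ := ∑ i ∈ Finset.range j, ex w i

lemma ex_nonneg {V : ℕ} {w : Fin V → ℝ} (h0 : ∀ v, 0 ≤ w v) (i : ℕ) : 0 ≤ ex w i := by
  unfold ex; split_ifs
  · exact h0 _
  · exact le_rfl

lemma ex_coe {V : ℕ} (w : Fin V → ℝ) (i : Fin V) : ex w i = w i := by
  unfold ex; simp

@[simp] lemma cum_zero {V : ℕ} (w : Fin V → ℝ) : cum w 0 = 0 := by simp [cum]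

lemma cum_succ {V : ℕ} (w : Fin V → ℝ) (j : ℕ) : cum w (j + 1) = cum w j + ex w j := by
  simp [cum, Finset.sum_range_succ]

lemma cum_V {V : ℕ} (w : Fin V → ℝ) : cum w V = ∑ v, w v := by
  unfold cum
  rw [Finset.sum_range]
  exact Finset.sum_congr rfl (fun i _ => ex_coe w i)

lemma cum_mono {V : ℕ} {w : Fin V → ℝ} (h0 : ∀ v, 0 ≤ w v) : Monotone (cum w) := by
  apply monotone_nat_of_le_succ
  intro n
  rw [cum_succ]
  linarith [ex_nonneg h0 n]

lemma cum_nonneg {V : ℕ} {w : Fin V → ℝ} (h0 : ∀ v, 0 ≤ w v) (j : ℕ) : 0 ≤ cum w j := by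
  have := cum_mono h0 (Nat.zero_le j)
  simpa using this

lemma cum_le_one {V : ℕ} {w : Fin V → ℝ} (h0 : ∀ v, 0 ≤ w v) (h1 : ∑ v, w v = 1) {j : ℕ}
    (hj : j ≤ V) : cum w j ≤ 1 := by
  have := cum_mono h0 hj
  rwa [cum_V, h1] at this

/-- each cumulative sum is `0` or the sum up to a nonzero entry -/
lemma cum_cases {V : ℕ} (w : Fin V → ℝ) (j : ℕ) (hj : j ≤ V) :
    cum w j = 0 ∨ ∃ v : Fin V, w v ≠ 0 ∧ cum w j = cum w (v + 1) := by
  induction j with
  | zero => left; simp
  | succ j ih =>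
    by_cases h : ex w j = 0
    · rw [cum_succ, h, add_zero]
      exact ih (by omega)
    · right
      refine ⟨⟨j, by omega⟩, ?_, rfl⟩
      have : ex w j = w ⟨j, by omega⟩ := by
        unfold ex; rw [dif_pos (by omega : j < V)]
      rwa [this] at h

lemma continuous_cum {X : Type*} [TopologicalSpace X] {V : ℕ} {f : X → Fin V → ℝ}
    (hf : Continuous f) (j : ℕ) : Continuous (fun x => cum (f x) j) := by
  unfold cum
  apply continuous_finsetSum
  intro i _
  unfold ex
  split_ifs with h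
  · exact (continuous_apply _).comp hf
  · exact continuous_const

/-- the lower ends -/
def F {V : ℕ} (N : ℕ) (w : Fin V → ℝ) (z : Fin (V + 1) → Fin (N + 1)) (j : Fin (V + 1)) : ℝ :=
  ((z j : ℕ) : ℝ) - N * cum w j

def lo {V : ℕ} (N : ℕ) (w : Fin V → ℝ) (z : Fin (V + 1) → Fin (N + 1)) : ℝ :=
  max 0 (Finset.univ.sup' Finset.univ_nonempty (F N w z))

def hi {V : ℕ} (N : ℕ) (w : Fin V → ℝ) (z : Fin (V + 1) → Fin (N + 1)) : ℝ :=
  1 + min 0 (Finset.univ.inf' Finset.univ_nonempty (F N w z))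

/-- the weight of the lattice point `z` -/
def bt {V : ℕ} (N : ℕ) (w : Fin V → ℝ) (z : Fin (V + 1) → Fin (N + 1)) : ℝ :=
  max (hi N w z - lo N w z) 0

lemma mem_iff {V : ℕ} (N : ℕ) (w : Fin V → ℝ) (z : Fin (V + 1) → Fin (N + 1)) (θ : ℝ) :
    (lo N w z ≤ θ ∧ θ < hi N w z) ↔ (0 ≤ θ ∧ θ < 1) ∧
      ∀ j : Fin (V + 1), ((z j : ℕ) : ℝ) ≤ N * cum w j + θ ∧ N * cum w j + θ < (z j : ℕ) + 1 := by
  unfold lo hi
  constructor
  · rintro ⟨h1, h2⟩
    have h3 : θ - 1 < min 0 (Finset.univ.inf' Finset.univ_nonempty (F N w z)) := by linarith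
    rw [max_le_iff] at h1
    rw [lt_min_iff] at h3
    refine ⟨⟨h1.1, by linarith [h3.1]⟩, fun j => ?_⟩
    have ha : F N w z j ≤ θ := le_trans (Finset.le_sup' (F N w z) (Finset.mem_univ j)) h1.2
    have hb : θ - 1 < F N w z j :=
      lt_of_lt_of_le h3.2 (Finset.inf'_le (F N w z) (Finset.mem_univ j))
    unfold F at ha hb
    constructor <;> linarith
  · rintro ⟨⟨h1, h2⟩, h3⟩
    constructor
    · rw [max_le_iff]
      refine ⟨h1, ?_⟩
      apply Finset.sup'_le
      intro j _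
      unfold F
      linarith [(h3 j).1]
    · have : θ - 1 < min 0 (Finset.univ.inf' Finset.univ_nonempty (F N w z)) := by
        rw [lt_min_iff]
        refine ⟨by linarith, ?_⟩
        rw [Finset.lt_inf'_iff]
        intro j _
        unfold F
        linarith [(h3 j).2]
      linarith

lemma z_unique {V : ℕ} {N : ℕ} {w : Fin V → ℝ} {z z' : Fin (V + 1) → Fin (N + 1)} {θ : ℝ}
    (h : lo N w z ≤ θ ∧ θ < hi N w z) (h' : lo N w z' ≤ θ ∧ θ < hi N w z') : z = z' := by
  rw [mem_iff] at h h'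
  funext j
  have h1 := h.2 j
  have h2 := h'.2 j
  apply Fin.ext
  have a1 : ((z j : ℕ) : ℝ) < (z' j : ℕ) + 1 := by linarith
  have a2 : ((z' j : ℕ) : ℝ) < (z j : ℕ) + 1 := by linarith
  have b1 : (z j : ℕ) < (z' j : ℕ) + 1 := by exact_mod_cast a1
  have b2 : (z' j : ℕ) < (z j : ℕ) + 1 := by exact_mod_cast a2
  omega

lemma exists_z {V : ℕ} (N : ℕ) {w : Fin V → ℝ} (h0 : ∀ v, 0 ≤ w v) (h1 : ∑ v, w v = 1)
    {θ : ℝ} (hθ : 0 ≤ θ ∧ θ < 1) :
    ∃ z : Fin (V + 1) → Fin (N + 1), lo N w z ≤ θ ∧ θ < hi N w z := by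
  have hb : ∀ j : Fin (V + 1), 0 ≤ N * cum w j + θ ∧ N * cum w j + θ < (N : ℝ) + 1 := by
    intro j
    have h2 := cum_nonneg h0 j
    have h3 := cum_le_one h0 h1 (Nat.lt_succ_iff.mp j.2)
    have hN : (0 : ℝ) ≤ N := Nat.cast_nonneg N
    constructor
    · have := mul_nonneg hN h2
      linarith [hθ.1]
    · have := mul_le_mul_of_nonneg_left h3 hN
      linarith [hθ.2]
  refine ⟨fun j => ⟨⌊(N : ℝ) * cum w j + θ⌋₊, ?_⟩, ?_⟩
  · rw [Nat.floor_lt (hb j).1]
    push_cast
    exact (hb j).2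
  · rw [mem_iff]
    refine ⟨hθ, fun j => ⟨?_, ?_⟩⟩
    · exact Nat.floor_le (hb j).1
    · exact Nat.lt_floor_add_one _

lemma bt_nonneg {V : ℕ} (N : ℕ) (w : Fin V → ℝ) (z : Fin (V + 1) → Fin (N + 1)) :
    0 ≤ bt N w z := le_max_right _ _

lemma bt_ne_zero {V : ℕ} {N : ℕ} {w : Fin V → ℝ} {z : Fin (V + 1) → Fin (N + 1)}
    (h : bt N w z ≠ 0) : lo N w z < hi N w z := by
  by_contra hc
  apply h
  unfold bt
  apply max_eq_right
  linarith

lemma sum_bt {V : ℕ} (N : ℕ) {w : Fin V → ℝ} (h0 : ∀ v, 0 ≤ w v) (h1 : ∑ v, w v = 1) :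
    ∑ z, bt N w z = 1 := by
  have hU : (⋃ z : Fin (V + 1) → Fin (N + 1), Set.Ico (lo N w z) (hi N w z)) = Set.Ico (0 : ℝ) 1 := by
    ext θ
    simp only [Set.mem_iUnion, Set.mem_Ico]
    constructor
    · rintro ⟨z, hz⟩
      exact ((mem_iff N w z θ).mp hz).1
    · intro hθ
      exact exists_z N h0 h1 hθ
  have hd : Pairwise (Function.onFun Disjoint
      (fun z : Fin (V + 1) → Fin (N + 1) => Set.Ico (lo N w z) (hi N w z))) := by
    intro z z' hne
    simp only [Function.onFun]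
    rw [Set.disjoint_left]
    intro θ h h'
    exact hne (z_unique h h')
  have hm := measure_iUnion (μ := (volume : Measure ℝ)) hd (fun z => measurableSet_Ico)
  rw [hU, tsum_fintype, Real.volume_Ico] at hm
  have h2 : ∀ z : Fin (V + 1) → Fin (N + 1),
      volume (Set.Ico (lo N w z) (hi N w z)) = ENNReal.ofReal (bt N w z) := by
    intro z
    rw [Real.volume_Ico]
    unfold bt
    rcases le_total (hi N w z - lo N w z) 0 with h | h
    · rw [max_eq_right h, ENNReal.ofReal_of_nonpos h, ENNReal.ofReal_zero]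
    · rw [max_eq_left h]
  simp only [h2] at hm
  rw [← ENNReal.ofReal_sum_of_nonneg (fun z _ => bt_nonneg N w z)] at hm
  have h3 := congrArg ENNReal.toReal hm
  rw [ENNReal.toReal_ofReal (by norm_num), ENNReal.toReal_ofReal
    (Finset.sum_nonneg (fun z _ => bt_nonneg N w z))] at h3
  linarith

lemma continuous_bt {X : Type*} [TopologicalSpace X] {V : ℕ} {f : X → Fin V → ℝ}
    (hf : Continuous f) (N : ℕ) (z : Fin (V + 1) → Fin (N + 1)) :
    Continuous (fun x => bt N (f x) z) := by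
  have hF : ∀ j, Continuous (fun x => F N (f x) z j) := by
    intro j
    unfold F
    exact continuous_const.sub (continuous_const.mul (continuous_cum hf j))
  unfold bt hi lo
  refine Continuous.max ?_ continuous_const
  refine Continuous.sub ?_ ?_
  · refine continuous_const.add (Continuous.min continuous_const ?_)
    exact Continuous.finset_inf'_apply _ (fun j _ => hF j)
  · refine Continuous.max continuous_const ?_
    exact Continuous.finset_sup'_apply _ (fun j _ => hF j)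

/-- the left ends of the nonempty intervals are among few numbers -/
lemma lo_mem {V : ℕ} {N : ℕ} {w : Fin V → ℝ} (h1 : ∑ v, w v = 1)
    {z : Fin (V + 1) → Fin (N + 1)} (hz : lo N w z < hi N w z) :
    lo N w z ∈ (Finset.univ.filter (fun v => w v ≠ 0)).image
      (fun v : Fin V => Int.fract (-((N : ℝ) * cum w (v + 1)))) := by
  have hhi : hi N w z ≤ 1 := by
    unfold hi
    have : min 0 (Finset.univ.inf' Finset.univ_nonempty (F N w z)) ≤ 0 := min_le_left _ _
    linarith
  have hlo : 0 ≤ lo N w z := le_max_left _ _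
  have hfr0 : (0 : ℝ) ∈ (Finset.univ.filter (fun v => w v ≠ 0)).image
      (fun v : Fin V => Int.fract (-((N : ℝ) * cum w (v + 1)))) := by
    rcases cum_cases w V le_rfl with h | ⟨v, hv, h⟩
    · rw [cum_V, h1] at h
      norm_num at h
    · rw [Finset.mem_image]
      refine ⟨v, by simp [hv], ?_⟩
      rw [← h, cum_V, h1, mul_one]
      have : (-(N : ℝ)) = ((-(N : ℤ) : ℤ) : ℝ) := by push_cast; rfl
      rw [this, Int.fract_intCast]
  have hcase : lo N w z = 0 ∨ ∃ j, lo N w z = F N w z j := by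
    unfold lo
    rcases le_total (Finset.univ.sup' Finset.univ_nonempty (F N w z)) 0 with h | h
    · left; exact max_eq_left h
    · right
      obtain ⟨j, _, hj⟩ := Finset.exists_mem_eq_sup' (Finset.univ_nonempty : (Finset.univ :
        Finset (Fin (V + 1))).Nonempty) (F N w z)
      exact ⟨j, by rw [max_eq_right h]; exact hj⟩
  rcases hcase with h | ⟨j, hj⟩
  · rw [h]; exact hfr0
  · have hfr : Int.fract (-((N : ℝ) * cum w j)) = lo N w z := by
      have h2 : -((N : ℝ) * cum w j) = lo N w z - ((z j : ℕ) : ℤ) := by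
        rw [hj]; unfold F; push_cast; ring
      rw [h2, Int.fract_sub_intCast, Int.fract_eq_self]
      exact ⟨hlo, lt_of_lt_of_le hz hhi⟩
    rcases cum_cases w j (Nat.lt_succ_iff.mp j.2) with h | ⟨v, hv, h⟩
    · rw [h] at hfr
      simp at hfr
      rw [← hfr]
      exact hfr0
    · rw [Finset.mem_image]
      refine ⟨v, by simp [hv], ?_⟩
      rw [← h]
      exact hfr

lemma card_le {V N W D : ℕ} {w : Fin V → ℝ} (h1 : ∑ v, w v = 1)
    (hD : (Finset.univ.filter (fun v => w v ≠ 0)).card ≤ D + 1)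
    (e : (Fin (V + 1) → Fin (N + 1)) ≃ Fin W) :
    (Finset.univ.filter (fun i : Fin W => bt N w (e.symm i) ≠ 0)).card ≤ D + 1 := by
  refine le_trans ?_ hD
  refine le_trans ?_ (Finset.card_image_le (s := Finset.univ.filter (fun v => w v ≠ 0))
    (f := fun v : Fin V => Int.fract (-((N : ℝ) * cum w (v + 1)))))
  apply Finset.card_le_card_of_injOn (fun i => lo N w (e.symm i))
  · intro i hi'
    have hi2 : bt N w (e.symm i) ≠ 0 := by simpa using hi'
    exact lo_mem h1 (bt_ne_zero hi2)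
  · intro i hi' i' hi'' heq
    have hi2 : bt N w (e.symm i) ≠ 0 := by simpa using hi'
    have hi3 : bt N w (e.symm i') ≠ 0 := by simpa using hi''
    simp only at heq
    have ha : lo N w (e.symm i) ≤ lo N w (e.symm i) ∧ lo N w (e.symm i) < hi N w (e.symm i) :=
      ⟨le_rfl, bt_ne_zero hi2⟩
    have hb : lo N w (e.symm i') ≤ lo N w (e.symm i) ∧ lo N w (e.symm i) < hi N w (e.symm i') := by
      rw [heq]
      exact ⟨le_rfl, bt_ne_zero hi3⟩
    exact e.symm.injective (z_unique ha hb)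

lemma close_of_ne {V N : ℕ} (hN : 0 < N) {w w' : Fin V → ℝ} {z : Fin (V + 1) → Fin (N + 1)}
    (h : bt N w z ≠ 0) (h' : bt N w' z ≠ 0) (v : Fin V) : |w v - w' v| < 4 / N := by
  have hN' : (0 : ℝ) < N := Nat.cast_pos.mpr hN
  have key : ∀ j : Fin (V + 1), |N * cum w j - N * cum w' j| < 2 := by
    intro j
    have ha := (mem_iff N w z _).mp ⟨le_rfl, bt_ne_zero h⟩
    have hb := (mem_iff N w' z _).mp ⟨le_rfl, bt_ne_zero h'⟩
    have ha1 := ha.1
    have hb1 := hb.1
    have ha2 := ha.2 j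
    have hb2 := hb.2 j
    rw [abs_lt]
    constructor <;> linarith [ha1.1, ha1.2, hb1.1, hb1.2, ha2.1, ha2.2, hb2.1, hb2.2]
  have k1 := key v.castSucc
  have k2 := key v.succ
  have e1 : cum w (v + 1 : ℕ) = cum w v + w v := by rw [cum_succ, ex_coe]
  have e2 : cum w' (v + 1 : ℕ) = cum w' v + w' v := by rw [cum_succ, ex_coe]
  simp only [Fin.val_castSucc, Fin.val_succ] at k1 k2
  rw [e1, e2] at k2
  rw [lt_div_iff₀ hN']
  have : |w v - w' v| * N = |N * (w v - w' v)| := by
    rw [abs_mul, abs_of_pos hN', mul_comm]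
  rw [this]
  rw [abs_lt] at k1 k2 ⊢
  constructor <;> nlinarith [k1.1, k1.2, k2.1, k2.2]

end Bary

open Bary in
theorem refine_partition {X : Type*} [TopologicalSpace X] [CompactSpace X] {V D : ℕ}
    (f : X → Fin V → ℝ) (hf : Continuous f) (h0 : ∀ x v, 0 ≤ f x v) (h1 : ∀ x, ∑ v, f x v = 1)
    (hD : ∀ x, (Finset.univ.filter (fun v => f x v ≠ 0)).card ≤ D + 1)
    (dd : X → X → ℝ) (hdd : Continuous (fun p : X × X => dd p.1 p.2)) {ε : ℝ}
    (hfib : ∀ x y, f x = f y → dd x y < ε) :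
    ∃ (W : ℕ) (g : X → Fin W → ℝ), Continuous g ∧ (∀ x v, 0 ≤ g x v) ∧ (∀ x, ∑ v, g x v = 1) ∧
      (∀ x, (Finset.univ.filter (fun v => g x v ≠ 0)).card ≤ D + 1) ∧
      ∀ v x y, g x v ≠ 0 → g y v ≠ 0 → dd x y < ε := by
  -- uniform separation
  have hδ : ∃ δ > 0, ∀ x y, dist (f x) (f y) < δ → dd x y < ε := by
    have hC : IsCompact {p : X × X | ε ≤ dd p.1 p.2} :=
      (isClosed_le continuous_const hdd).isCompact
    have hc : Continuous (fun p : X × X => dist (f p.1) (f p.2)) :=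
      (hf.comp continuous_fst).dist (hf.comp continuous_snd)
    rcases Set.eq_empty_or_nonempty {p : X × X | ε ≤ dd p.1 p.2} with he | hne
    · refine ⟨1, one_pos, fun x y _ => ?_⟩
      by_contra hcon
      have : (x, y) ∈ {p : X × X | ε ≤ dd p.1 p.2} := not_lt.mp hcon
      rw [he] at this
      exact this
    · obtain ⟨p, hp, hmin⟩ := hC.exists_isMinOn hne hc.continuousOn
      refine ⟨dist (f p.1) (f p.2), ?_, fun x y hxy => ?_⟩
      · rw [gt_iff_lt, dist_pos]
        intro heq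
        have := hfib _ _ heq
        exact absurd this (not_lt.mpr hp)
      · by_contra hcon
        have hm : (x, y) ∈ {p : X × X | ε ≤ dd p.1 p.2} := not_lt.mp hcon
        have := hmin hm
        simp only [Set.mem_ofPred_eq] at this
        exact absurd hxy (not_lt.mpr this)
  obtain ⟨δ, hδ0, hδ1⟩ := hδ
  obtain ⟨N, hN⟩ := exists_nat_gt (4 / δ)
  have hNpos : 0 < N := by
    have : (0 : ℝ) < N := lt_trans (by positivity) hN
    exact_mod_cast this
  have hN4 : 4 / (N : ℝ) < δ := by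
    have hN' : (0 : ℝ) < N := Nat.cast_pos.mpr hNpos
    rw [div_lt_iff₀ hN']
    rw [div_lt_iff₀ hδ0] at hN
    linarith
  let e := Fintype.equivFin (Fin (V + 1) → Fin (N + 1))
  refine ⟨_, fun x i => bt N (f x) (e.symm i), ?_, ?_, ?_, ?_, ?_⟩
  · exact continuous_pi (fun i => continuous_bt hf N _)
  · intro x v
    exact bt_nonneg _ _ _
  · intro x
    rw [← sum_bt N (h0 x) (h1 x)]
    exact Equiv.sum_comp e.symm (fun z => bt N (f x) z)
  · intro x
    exact card_le (h1 x) (hD x) e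
  · intro v x y hx hy
    apply hδ1
    rw [dist_pi_lt_iff hδ0]
    intro i
    rw [Real.dist_eq]
    exact lt_trans (close_of_ne hNpos hx hy i) hN4

end

end Pfc1499
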