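import Pool.Agent.Lib.Pfc1499.Defs

/-!
# MP_fc1499_an, module Chi : interpolation functions

A Schwartz function with spectrum in a cube of side `> 1/q`, equal to `1` at `0`, vanishing on
`q ℤ^k ∖ {0}` and of modulus `< 1` on `ℤ^k ∖ {0}`. It is a product of one-dimensional functions, the
profile of the Fourier transform being a difference of two translates of a smooth step.
-/

namespace Pfc1499

open MeasureTheory FourierTransform Filter Topology
open scoped SchwartzMap ENNReal BigOperators ContDiff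

noncomputable section

namespace Chi

/-- A smooth step of width `2δ`. -/
def S (δ x : ℝ) : ℝ := Real.smoothTransition ((x + δ) / (2 * δ))

lemma S_zero {δ x : ℝ} (hδ : 0 < δ) (hx : x ≤ -δ) : S δ x = 0 := by
  unfold S
  apply Real.smoothTransition.zero_of_nonpos
  apply div_nonpos_of_nonpos_of_nonneg <;> linarith

lemma S_one {δ x : ℝ} (hδ : 0 < δ) (hx : δ ≤ x) : S δ x = 1 := by
  unfold S
  apply Real.smoothTransition.one_of_one_le
  rw [le_div_iff₀ (by linarith)]; linarith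

lemma S_nonneg (δ x : ℝ) : 0 ≤ S δ x := Real.smoothTransition.nonneg _

lemma S_le_one (δ x : ℝ) : S δ x ≤ 1 := Real.smoothTransition.le_one _

lemma S_contDiff (δ : ℝ) : ContDiff ℝ ∞ (S δ) := by
  unfold S
  have h : ContDiff ℝ ∞ (fun x : ℝ => (x + δ) / (2 * δ)) := by fun_prop
  exact (Real.smoothTransition.contDiff (n := ⊤)).comp h

lemma S_continuous (δ : ℝ) : Continuous (S δ) := (S_contDiff δ).continuous

/-- The one-dimensional profile. -/
def h1 (a δ x : ℝ) : ℝ := (S δ (x + a) - S δ (x - a)) / (2 * a)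

lemma h1_contDiff (a δ : ℝ) : ContDiff ℝ ∞ (h1 a δ) := by
  unfold h1
  have h2 : ContDiff ℝ ∞ (fun x => S δ (x + a)) := (S_contDiff δ).comp (by fun_prop)
  have h3 : ContDiff ℝ ∞ (fun x => S δ (x - a)) := (S_contDiff δ).comp (by fun_prop)
  exact (h2.sub h3).div_const _

lemma h1_continuous (a δ : ℝ) : Continuous (h1 a δ) := (h1_contDiff a δ).continuous

lemma h1_nonneg {a δ : ℝ} (hδ : 0 < δ) (ha : δ ≤ a) (x : ℝ) : 0 ≤ h1 a δ x := by
  unfold h1
  apply div_nonneg _ (by linarith)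
  rcases le_total x 0 with hx | hx
  · rw [S_zero hδ (x := x - a) (by linarith)]
    linarith [S_nonneg δ (x + a)]
  · rw [S_one hδ (x := x + a) (by linarith)]
    linarith [S_le_one δ (x - a)]

lemma h1_supp {a δ : ℝ} (hδ : 0 < δ) (ha : δ ≤ a) {x : ℝ} (hx : h1 a δ x ≠ 0) : |x| < a + δ := by
  by_contra h
  push Not at h
  apply hx
  unfold h1
  rcases le_abs.1 h with h | h
  · rw [S_one hδ (x := x + a) (by linarith), S_one hδ (x := x - a) (by linarith)]; simp
  · rw [S_zero hδ (x := x + a) (by linarith), S_zero hδ (x := x - a) (by linarith)]; simp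

lemma h1_zero_pos {a δ : ℝ} (hδ : 0 < δ) (ha : δ ≤ a) : 0 < h1 a δ 0 := by
  unfold h1
  rw [S_one hδ (x := 0 + a) (by linarith), S_zero hδ (x := 0 - a) (by linarith)]
  apply div_pos <;> linarith

lemma h1_compact {a δ : ℝ} (hδ : 0 < δ) (ha : δ ≤ a) : HasCompactSupport (h1 a δ) := by
  apply HasCompactSupport.intro (K := Set.Icc (-(a + δ)) (a + δ)) isCompact_Icc
  intro x hx
  by_contra h
  have := h1_supp hδ ha h
  rw [abs_lt] at this
  exact hx ⟨this.1.le, this.2.le⟩

/-- The exponential `e(x) = exp(2πi x)`. -/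
def e (x : ℝ) : ℂ := Complex.exp (2 * Real.pi * x * Complex.I)

lemma e_add (x y : ℝ) : e (x + y) = e x * e y := by
  unfold e
  rw [← Complex.exp_add]; congr 1; push_cast; ring

lemma e_zero : e 0 = 1 := by simp [e]

lemma e_continuous : Continuous e := by unfold e; fun_prop

lemma norm_e (x : ℝ) : ‖e x‖ = 1 := by
  unfold e
  rw [show (2 * Real.pi * x * Complex.I : ℂ) = ((2 * Real.pi * x : ℝ) : ℂ) * Complex.I by push_cast; ring]
  exact Complex.norm_exp_ofReal_mul_I _

lemma e_eq_one_iff {x : ℝ} : e x = 1 ↔ ∃ n : ℤ, x = n := by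
  unfold e
  rw [Complex.exp_eq_one_iff]
  constructor
  · rintro ⟨n, hn⟩
    refine ⟨n, ?_⟩
    have h2 : (2 * Real.pi * Complex.I : ℂ) ≠ 0 := Complex.two_pi_I_ne_zero
    have : (x : ℂ) = n := by
      apply mul_right_cancel₀ h2
      rw [← hn]; ring
    exact_mod_cast this
  · rintro ⟨n, hn⟩
    exact ⟨n, by rw [hn]; push_cast; ring⟩

lemma e_int (n : ℤ) : e n = 1 := e_eq_one_iff.2 ⟨n, rfl⟩

/-- The one-dimensional transform. -/
def F1 (a δ t : ℝ) : ℂ := ∫ x : ℝ, e (x * t) * (h1 a δ x : ℂ)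

lemma F1_eq_interval {a δ : ℝ} (hδ : 0 < δ) (ha : δ ≤ a) (t : ℝ) :
    F1 a δ t = ∫ x in (-(3 * a))..(3 * a), e (x * t) * (h1 a δ x : ℂ) := by
  unfold F1
  rw [intervalIntegral.integral_eq_integral_of_support_subset]
  intro x hx
  rw [Function.mem_support] at hx
  have h : h1 a δ x ≠ 0 := by
    intro h; apply hx; rw [h]; simp
  have := h1_supp hδ ha h
  rw [abs_lt] at this
  exact ⟨by linarith, by linarith⟩

lemma F1_eval {a δ : ℝ} (hδ : 0 < δ) (ha : δ ≤ a) {t : ℝ} {n : ℤ} (hn : 2 * a * t = n) :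
    F1 a δ t = e (-(a * t)) * (∫ y in (2 * a)..(4 * a), e (y * t)) / (2 * a) := by
  rw [F1_eq_interval hδ ha]
  have hc : ∀ s : ℝ, Continuous (fun x : ℝ => e (x * t) * (S δ (x + s) : ℂ)) := by
    intro s
    have h1 : Continuous (fun x : ℝ => e (x * t)) := e_continuous.comp (by fun_prop)
    have h2 : Continuous (fun x : ℝ => (S δ (x + s) : ℂ)) :=
      Complex.continuous_ofReal.comp ((S_continuous δ).comp (by fun_prop))
    exact h1.mul h2
  have hG : ∀ x y : ℝ, IntervalIntegrable (fun x : ℝ => e (x * t) * (S δ x : ℂ)) volume x y := by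
    intro x y
    have := (hc 0).intervalIntegrable x y (μ := volume)
    simpa using this
  have hs : ∀ s : ℝ, ∫ x in (-(3 * a))..(3 * a), e (x * t) * (S δ (x + s) : ℂ)
      = e (-(s * t)) * ∫ y in (-(3 * a) + s)..(3 * a + s), e (y * t) * (S δ y : ℂ) := by
    intro s
    rw [← intervalIntegral.integral_comp_add_right (fun y => e (y * t) * (S δ y : ℂ)) s,
      ← intervalIntegral.integral_const_mul]
    congr 1
    ext x
    rw [← mul_assoc, ← e_add]
    congr 2
    ring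
  have he : e (a * t) = e (-(a * t)) := by
    have : e (a * t) = e (-(a * t)) * e (2 * a * t) := by
      rw [← e_add]; congr 1; ring
    rw [this, hn, e_int, mul_one]
  have h3 : ∫ x in (-(3 * a))..(3 * a), e (x * t) * (h1 a δ x : ℂ)
      = ((∫ x in (-(3 * a))..(3 * a), e (x * t) * (S δ (x + a) : ℂ))
        - ∫ x in (-(3 * a))..(3 * a), e (x * t) * (S δ (x + (-a)) : ℂ)) / (2 * a) := by
    rw [← intervalIntegral.integral_sub ((hc a).intervalIntegrable _ _)
      ((hc (-a)).intervalIntegrable _ _), ← intervalIntegral.integral_div]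
    congr 1
    ext x
    unfold h1
    push_cast
    rw [sub_eq_add_neg x a]
    ring
  rw [h3, hs a, hs (-a)]
  have h4 : e (-(-a * t)) = e (-(a * t)) := by
    rw [← he]; congr 1; ring
  rw [h4, ← mul_sub]
  congr 2
  -- split the two integrals
  have h5 : ∫ y in (-(3 * a) + a)..(3 * a + a), e (y * t) * (S δ y : ℂ)
      = (∫ y in (-(3 * a) + a)..(2 * a), e (y * t) * (S δ y : ℂ))
        + ∫ y in (2 * a)..(3 * a + a), e (y * t) * (S δ y : ℂ) :=
    (intervalIntegral.integral_add_adjacent_intervals (hG _ _) (hG _ _)).symm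
  have h6 : ∫ y in (-(3 * a) + -a)..(3 * a + -a), e (y * t) * (S δ y : ℂ)
      = (∫ y in (-(3 * a) + -a)..(-(3 * a) + a), e (y * t) * (S δ y : ℂ))
        + ∫ y in (-(3 * a) + a)..(3 * a + -a), e (y * t) * (S δ y : ℂ) :=
    (intervalIntegral.integral_add_adjacent_intervals (hG _ _) (hG _ _)).symm
  have h7 : ∫ y in (-(3 * a) + -a)..(-(3 * a) + a), e (y * t) * (S δ y : ℂ) = 0 := by
    rw [show (0 : ℂ) = ∫ y in (-(3 * a) + -a)..(-(3 * a) + a), (0 : ℂ) by simp]
    apply intervalIntegral.integral_congr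
    intro y hy
    rw [Set.uIcc_of_le (by linarith)] at hy
    simp only
    rw [S_zero hδ (by linarith [hy.2])]
    simp
  have h8 : ∫ y in (2 * a)..(3 * a + a), e (y * t) * (S δ y : ℂ)
      = ∫ y in (2 * a)..(4 * a), e (y * t) := by
    rw [show 3 * a + a = 4 * a by ring]
    apply intervalIntegral.integral_congr
    intro y hy
    rw [Set.uIcc_of_le (by linarith)] at hy
    simp only
    rw [S_one hδ (by linarith [hy.1])]
    simp
  have h9 : (3 * a + -a) = 2 * a := by ring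
  rw [h5, h6, h7, h8, h9]
  ring

lemma F1_zero {a δ : ℝ} (hδ : 0 < δ) (ha : δ ≤ a) : F1 a δ 0 = 1 := by
  rw [F1_eval hδ ha (n := 0) (by simp)]
  have ha0 : (a : ℂ) ≠ 0 := by
    have : a ≠ 0 := by linarith
    exact_mod_cast this
  simp only [mul_zero, neg_zero, e_zero, one_mul]
  rw [intervalIntegral.integral_const]
  simp only [Complex.real_smul]
  push_cast
  field_simp
  ring

lemma F1_eq_zero {a δ : ℝ} (hδ : 0 < δ) (ha : δ ≤ a) {t : ℝ} (ht : t ≠ 0) {n : ℤ}
    (hn : 2 * a * t = n) : F1 a δ t = 0 := by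
  rw [F1_eval hδ ha hn]
  have h : ∫ y in (2 * a)..(4 * a), e (y * t) = 0 := by
    have hc : (2 * Real.pi * t * Complex.I : ℂ) ≠ 0 := by
      have : (2 * Real.pi * t : ℝ) ≠ 0 := by positivity
      have h2 : ((2 * Real.pi * t : ℝ) : ℂ) ≠ 0 := by exact_mod_cast this
      push_cast at h2
      exact mul_ne_zero h2 Complex.I_ne_zero
    have h1 : ∀ y : ℝ, e (y * t) = Complex.exp ((2 * Real.pi * t * Complex.I) * y) := by
      intro y; unfold e; congr 1; push_cast; ring
    simp_rw [h1]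
    rw [integral_exp_mul_complex hc]
    rw [← h1, ← h1]
    have h2 : e (4 * a * t) = 1 := by
      rw [show 4 * a * t = ((2 * n : ℤ) : ℝ) by push_cast; linarith]; exact e_int _
    have h3 : e (2 * a * t) = 1 := by rw [hn]; exact e_int _
    rw [h2, h3]; simp
  rw [h]; simp

lemma integrable_h1 {a δ : ℝ} (hδ : 0 < δ) (ha : δ ≤ a) : Integrable (h1 a δ) :=
  (h1_continuous a δ).integrable_of_hasCompactSupport (h1_compact hδ ha)

lemma integral_h1 {a δ : ℝ} (hδ : 0 < δ) (ha : δ ≤ a) : ∫ x, h1 a δ x = 1 := by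
  have h := F1_zero hδ ha
  unfold F1 at h
  simp only [mul_zero, e_zero, one_mul] at h
  rw [integral_complex_ofReal] at h
  exact_mod_cast h

lemma norm_F1_le {a δ : ℝ} (hδ : 0 < δ) (ha : δ ≤ a) (t : ℝ) : ‖F1 a δ t‖ ≤ 1 := by
  unfold F1
  calc ‖∫ x : ℝ, e (x * t) * (h1 a δ x : ℂ)‖ ≤ ∫ x : ℝ, ‖e (x * t) * (h1 a δ x : ℂ)‖ :=
        norm_integral_le_integral_norm _
    _ = ∫ x : ℝ, h1 a δ x := by
        congr 1; ext x
        rw [norm_mul, norm_e, one_mul, Complex.norm_real, Real.norm_of_nonneg (h1_nonneg hδ ha x)]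
    _ = 1 := integral_h1 hδ ha

lemma norm_F1_lt {a δ : ℝ} (hδ : 0 < δ) (ha : δ ≤ a) {t : ℝ} (ht : t ≠ 0) :
    ‖F1 a δ t‖ < 1 := by
  apply lt_of_le_of_ne (norm_F1_le hδ ha t)
  intro h
  set z := F1 a δ t with hz
  -- ∫ h1 (1 - Re (conj z * e)) = 0
  have hcont : Continuous (fun x : ℝ => (1 - ((starRingEnd ℂ z) * e (x * t)).re) * h1 a δ x) := by
    have : Continuous (fun x : ℝ => e (x * t)) := e_continuous.comp (by fun_prop)
    have h2 := h1_continuous a δ
    fun_prop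
  have hnn : ∀ x : ℝ, 0 ≤ (1 - ((starRingEnd ℂ z) * e (x * t)).re) * h1 a δ x := by
    intro x
    apply mul_nonneg _ (h1_nonneg hδ ha x)
    have := Complex.re_le_norm ((starRingEnd ℂ z) * e (x * t))
    rw [norm_mul, norm_e, RCLike.norm_conj, h] at this
    linarith
  have hint : Integrable (fun x : ℝ => e (x * t) * (h1 a δ x : ℂ)) := by
    have := (integrable_h1 hδ ha).ofReal (𝕜 := ℂ)
    refine this.bdd_mul (c := 1) ?_ ?_
    · exact (e_continuous.comp (by fun_prop : Continuous fun x : ℝ => x * t)).aestronglyMeasurable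
    · exact Eventually.of_forall fun x => (norm_e _).le
  have hI : ∫ x : ℝ, (1 - ((starRingEnd ℂ z) * e (x * t)).re) * h1 a δ x = 0 := by
    have h1' : ∀ x : ℝ, (1 - ((starRingEnd ℂ z) * e (x * t)).re) * h1 a δ x
        = h1 a δ x - ((starRingEnd ℂ z) * (e (x * t) * (h1 a δ x : ℂ))).re := by
      intro x
      rw [← mul_assoc, Complex.re_mul_ofReal]
      ring
    simp_rw [h1']
    rw [integral_sub (integrable_h1 hδ ha), integral_h1 hδ ha]
    · have : ∫ x : ℝ, ((starRingEnd ℂ z) * (e (x * t) * (h1 a δ x : ℂ))).re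
          = (∫ x : ℝ, (starRingEnd ℂ z) * (e (x * t) * (h1 a δ x : ℂ))).re := by
        exact integral_re (𝕜 := ℂ) (hint.const_mul _)
      rw [this, integral_const_mul]
      change 1 - ((starRingEnd ℂ z) * z).re = 0
      rw [mul_comm, Complex.mul_conj, Complex.normSq_eq_norm_sq, h]
      simp
    · exact (hint.const_mul _).re (𝕜 := ℂ)
  have hzero : ∀ x : ℝ, (1 - ((starRingEnd ℂ z) * e (x * t)).re) * h1 a δ x = 0 := by
    have := (integral_eq_zero_iff_of_nonneg (μ := volume) (fun x => hnn x) ?_).1 hI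
    · have h2 := (Continuous.ae_eq_iff_eq volume hcont continuous_const).1 this
      intro x; exact congrFun h2 x
    · exact hcont.integrable_of_hasCompactSupport ((h1_compact hδ ha).mul_left)
  -- near 0, h1 > 0
  have hev : ∀ᶠ x in 𝓝 (0 : ℝ), 0 < h1 a δ x :=
    (h1_continuous a δ).continuousAt.eventually (lt_mem_nhds (h1_zero_pos hδ ha))
  have key : ∀ x : ℝ, 0 < h1 a δ x → e (x * t) = z := by
    intro x hx
    have h1' := hzero x
    have h2 : ((starRingEnd ℂ z) * e (x * t)).re = 1 := by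
      rcases mul_eq_zero.1 h1' with h | h
      · linarith
      · exact absurd h hx.ne'
    have h3 : ‖(starRingEnd ℂ z) * e (x * t)‖ = 1 := by
      rw [norm_mul, norm_e, RCLike.norm_conj, h, one_mul]
    have h4 : (starRingEnd ℂ z) * e (x * t) = 1 := by
      have h5 : ((starRingEnd ℂ z) * e (x * t)).im = 0 := by
        have := Complex.sq_norm ((starRingEnd ℂ z) * e (x * t))
        rw [Complex.normSq_apply, h3, h2] at this
        nlinarith
      apply Complex.ext
      · rw [h2]; simp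
      · rw [h5]; simp
    calc e (x * t) = (z * (starRingEnd ℂ z)) * e (x * t) := by
          rw [Complex.mul_conj, Complex.normSq_eq_norm_sq, h]; simp
      _ = z := by rw [mul_assoc, h4, mul_one]
  obtain ⟨ε, hε, hball⟩ := Metric.eventually_nhds_iff.1 hev
  have ht' : 0 < |t| := abs_pos.2 ht
  set x : ℝ := min (ε / 2) (1 / (2 * |t|)) with hx
  have hx0 : 0 < x := by positivity
  have hxε : x < ε := lt_of_le_of_lt (min_le_left _ _) (by linarith)
  have hxt : x * |t| ≤ 1 / 2 := by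
    calc x * |t| ≤ 1 / (2 * |t|) * |t| := by gcongr; exact min_le_right _ _
      _ = 1 / 2 := by field_simp
  have e1 := key x (hball (by rw [Real.dist_eq, sub_zero, abs_of_pos hx0]; exact hxε))
  have e2 := key 0 (h1_zero_pos hδ ha)
  have e3 : e (x * t) = 1 := by
    rw [e1, ← e2]; simp [e_zero]
  obtain ⟨n, hn⟩ := e_eq_one_iff.1 e3
  have h4 : |x * t| ≤ 1 / 2 := by rw [abs_mul, abs_of_pos hx0]; exact hxt
  have h5 : 0 < |x * t| := abs_pos.2 (mul_ne_zero hx0.ne' ht)
  rw [hn] at h4 h5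
  have h6 : (0 : ℝ) < |(n : ℝ)| := h5
  have h7 : |n| < 1 := by
    have : (|n| : ℝ) < 1 := by
      have := h4; linarith
    exact_mod_cast this
  have h8 : n = 0 := Int.abs_lt_one_iff.1 h7
  rw [h8] at h6
  simp at h6

/-! ### The product -/

variable {k : ℕ}

/-- The modulated product profile. -/
def hfun (a δ : ℝ) (c u : Rk k) (ξ : Rk k) : ℂ :=
  e (-(inner ℝ ξ u)) * ∏ i, (h1 a δ (ξ i - c i) : ℂ)

lemma hfun_supp {a δ : ℝ} (hδ : 0 < δ) (ha : δ ≤ a) (c u : Rk k) {ξ : Rk k}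
    (hξ : hfun a δ c u ξ ≠ 0) (i : Fin k) : |ξ i - c i| < a + δ := by
  apply h1_supp hδ ha
  intro h
  apply hξ
  unfold hfun
  rw [Finset.prod_eq_zero (Finset.mem_univ i) (by rw [h]; simp)]
  simp

lemma hfun_contDiff (a δ : ℝ) (c u : Rk k) : ContDiff ℝ ∞ (hfun a δ c u) := by
  unfold hfun
  apply ContDiff.mul
  · unfold e
    have h1 : ContDiff ℝ ∞ (fun ξ : Rk k => (-(inner ℝ ξ u) : ℝ)) :=
      (contDiff_id.inner ℝ contDiff_const).neg
    have h2 : ContDiff ℝ ∞ (fun ξ : Rk k => ((-(inner ℝ ξ u) : ℝ) : ℂ)) :=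
      Complex.ofRealCLM.contDiff.comp h1
    exact ((contDiff_const.mul h2).mul contDiff_const).cexp
  · apply contDiff_prod
    intro i _
    apply Complex.ofRealCLM.contDiff.comp
    apply (h1_contDiff a δ).comp
    fun_prop

lemma hfun_compact {a δ : ℝ} (hδ : 0 < δ) (ha : δ ≤ a) (c u : Rk k) :
    HasCompactSupport (hfun a δ c u) := by
  have hK : IsCompact (WithLp.toLp 2 '' (Set.Icc (fun i => c i - (a + δ)) (fun i => c i + (a + δ)) :
      Set (Fin k → ℝ)) : Set (Rk k)) := by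
    apply isCompact_Icc.image
    exact PiLp.continuous_toLp 2 _
  apply HasCompactSupport.intro hK
  intro ξ hξ
  by_contra h
  apply hξ
  refine ⟨fun i => ξ i, ⟨fun i => ?_, fun i => ?_⟩, rfl⟩
  · have := abs_lt.1 (hfun_supp hδ ha c u h i)
    simp only; linarith [this.1]
  · have := abs_lt.1 (hfun_supp hδ ha c u h i)
    simp only; linarith [this.2]

/-- The Schwartz function with values `hfun`. -/
def H {a δ : ℝ} (hδ : 0 < δ) (ha : δ ≤ a) (c u : Rk k) : 𝓢(Rk k, ℂ) :=
  (hfun_compact hδ ha c u).toSchwartzMap (hfun_contDiff a δ c u)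

lemma H_apply {a δ : ℝ} (hδ : 0 < δ) (ha : δ ≤ a) (c u ξ : Rk k) :
    H hδ ha c u ξ = hfun a δ c u ξ := rfl

lemma fourierInv_H {a δ : ℝ} (hδ : 0 < δ) (ha : δ ≤ a) (c u t : Rk k) :
    (𝓕⁻ (H hδ ha c u) : 𝓢(Rk k, ℂ)) t = ∫ ξ : Rk k, e (inner ℝ ξ (t - u)) *
      ∏ i, (h1 a δ (ξ i - c i) : ℂ) := by
  rw [SchwartzMap.fourierInv_coe, Real.fourierInv_eq']
  congr 1
  ext ξ
  rw [H_apply, hfun, smul_eq_mul, ← mul_assoc]
  congr 1
  unfold e
  rw [← Complex.exp_add, inner_sub_right]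
  congr 1
  push_cast
  ring

lemma fourierInv_H_shift {a δ : ℝ} (hδ : 0 < δ) (ha : δ ≤ a) (c u t : Rk k) :
    (𝓕⁻ (H hδ ha c u) : 𝓢(Rk k, ℂ)) t = (𝓕⁻ (H hδ ha c 0) : 𝓢(Rk k, ℂ)) (t - u) := by
  rw [fourierInv_H, fourierInv_H, sub_zero]

lemma integral_shift {a δ : ℝ} (c t : ℝ) :
    ∫ x : ℝ, e (x * t) * (h1 a δ (x - c) : ℂ) = e (c * t) * F1 a δ t := by
  unfold F1
  rw [← integral_const_mul,
    ← integral_sub_right_eq_self (fun x : ℝ => e (c * t) * (e (x * t) * (h1 a δ x : ℂ))) c]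
  congr 1
  ext x
  rw [← mul_assoc, ← e_add]
  congr 2
  ring

lemma fourierInv_H_prod {a δ : ℝ} (hδ : 0 < δ) (ha : δ ≤ a) (c t : Rk k) :
    (𝓕⁻ (H hδ ha c 0) : 𝓢(Rk k, ℂ)) t = ∏ i, (e (c i * t i) * F1 a δ (t i)) := by
  rw [fourierInv_H, sub_zero]
  rw [← (EuclideanSpace.volume_preserving_symm_measurableEquiv_toLp (Fin k)).symm.integral_comp
    (MeasurableEquiv.measurableEmbedding _)]
  simp_rw [← integral_shift]
  rw [← integral_fintype_prod_volume_eq_prod (fun (i : Fin k) (x : ℝ) =>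
    e (x * t i) * (h1 a δ (x - c i) : ℂ))]
  congr 1
  ext x
  rw [Finset.prod_mul_distrib]
  congr 1
  have hi : inner ℝ ((MeasurableEquiv.toLp 2 (Fin k → ℝ)).symm.symm x) t = ∑ i, x i * t i := by
    rw [PiLp.inner_apply]
    apply Finset.sum_congr rfl
    intro i _
    simp [mul_comm]
  rw [hi]
  unfold e
  rw [← Complex.exp_sum]
  congr 1
  push_cast
  rw [Finset.mul_sum, Finset.sum_mul]

end Chi

theorem exists_chi {k : ℕ} (q : ℕ) (hq : 0 < q) (r : ℝ) (hr : 1 / (2 * (q : ℝ)) < r) (c : Rk k) :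
    ∃ χ : 𝓢(Rk k, ℂ), χ 0 = 1 ∧ (∀ n : Zk k, n ≠ 0 → χ (zr ((q : ℤ) • n)) = 0) ∧
      (∀ n : Zk k, n ≠ 0 → ‖χ (zr n)‖ < 1) ∧
      ∀ u : Rk k, SBL (cubeC c r) (fun t => χ (t - u)) := by
  set a : ℝ := 1 / (2 * (q : ℝ)) with ha_def
  have hq' : (0 : ℝ) < q := by exact_mod_cast hq
  have ha0 : 0 < a := by positivity
  set δ : ℝ := min a (r - a) with hδ_def
  have hδ : 0 < δ := lt_min ha0 (by linarith)
  have ha : δ ≤ a := min_le_left _ _
  have hδr : a + δ ≤ r := by linarith [min_le_right a (r - a)]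
  refine ⟨𝓕⁻ (Chi.H hδ ha c 0), ?_, ?_, ?_, ?_⟩
  · rw [Chi.fourierInv_H_prod]
    apply Finset.prod_eq_one
    intro i _
    simp [Chi.e_zero, Chi.F1_zero hδ ha]
  · intro n hn
    rw [Chi.fourierInv_H_prod]
    obtain ⟨i, hi⟩ : ∃ i, n i ≠ 0 := by
      by_contra h; push Not at h; exact hn (funext h)
    apply Finset.prod_eq_zero (Finset.mem_univ i)
    rw [Chi.F1_eq_zero hδ ha (n := n i), mul_zero]
    · simp only [zr_apply, Pi.smul_apply, smul_eq_mul]
      push_cast
      have : (n i : ℝ) ≠ 0 := by exact_mod_cast hi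
      positivity
    · simp only [zr_apply, Pi.smul_apply, smul_eq_mul]
      push_cast
      rw [ha_def]; field_simp
  · intro n hn
    rw [Chi.fourierInv_H_prod, norm_prod]
    obtain ⟨i, hi⟩ : ∃ i, n i ≠ 0 := by
      by_contra h; push Not at h; exact hn (funext h)
    rw [← Finset.mul_prod_erase _ _ (Finset.mem_univ i)]
    have h1 : ‖Chi.e (c i * zr n i) * Chi.F1 a δ (zr n i)‖ < 1 := by
      rw [norm_mul, Chi.norm_e, one_mul]
      apply Chi.norm_F1_lt hδ ha
      simpa using hi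
    have h2 : ∏ x ∈ Finset.univ.erase i, ‖Chi.e (c x * zr n x) * Chi.F1 a δ (zr n x)‖ ≤ 1 := by
      apply Finset.prod_le_one
      · intro j _; exact norm_nonneg _
      · intro j _
        rw [norm_mul, Chi.norm_e, one_mul]
        exact Chi.norm_F1_le hδ ha _
    calc _ ≤ ‖Chi.e (c i * zr n i) * Chi.F1 a δ (zr n i)‖ * 1 := by
          gcongr
      _ < 1 := by rw [mul_one]; exact h1
  · intro u φ hφ
    have h1 : ∀ t : Rk k, (𝓕⁻ (Chi.H hδ ha c 0) : 𝓢(Rk k, ℂ)) (t - u) * (𝓕 φ) t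
        = (𝓕⁻ (Chi.H hδ ha c u) : 𝓢(Rk k, ℂ)) t * (𝓕 φ) t := by
      intro t; rw [Chi.fourierInv_H_shift hδ ha c u t]
    simp_rw [h1]
    rw [SchwartzMap.integral_fourierInv_mul_eq, FourierTransform.fourierInv_fourier_eq]
    have h2 : ∀ ξ : Rk k, (Chi.H hδ ha c u) ξ * φ ξ = 0 := by
      intro ξ
      by_cases h : ∀ i, |ξ i - c i| ≤ r
      · rw [hφ ξ h, mul_zero]
      · push Not at h
        obtain ⟨i, hi⟩ := h
        rw [Chi.H_apply]
        have : Chi.hfun a δ c u ξ = 0 := by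
          by_contra h'
          have := Chi.hfun_supp hδ ha c u h' i
          linarith
        rw [this, zero_mul]
    simp_rw [h2]
    simp

end

end Pfc1499
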