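import Mathlib

/-!
# MP_fc1499_an : embedding `ℤ^k`-systems in band-limited shifts, definitions

Common definitions of the formalisation (all modules import this file only, and Mathlib).
-/

namespace Pfc1499

open MeasureTheory FourierTransform Filter Topology
open scoped SchwartzMap ENNReal BigOperators

noncomputable section

/-- The group `ℤ^k`. -/
abbrev Zk (k : ℕ) := Fin k → ℤ

/-- The space `ℝ^k` with its Euclidean structure. -/
abbrev Rk (k : ℕ) := EuclideanSpace ℝ (Fin k)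

/-- The inclusion `ℤ^k → ℝ^k`. -/
def zr {k : ℕ} (n : Zk k) : Rk k := WithLp.toLp 2 (fun i => (n i : ℝ))

@[simp] lemma zr_apply {k : ℕ} (n : Zk k) (i : Fin k) : zr n i = (n i : ℝ) := rfl

lemma zr_add {k : ℕ} (n m : Zk k) : zr (n + m) = zr n + zr m := by
  ext i; simp

lemma zr_sub {k : ℕ} (n m : Zk k) : zr (n - m) = zr n - zr m := by
  ext i; simp

@[simp] lemma zr_zero {k : ℕ} : zr (0 : Zk k) = 0 := by
  ext i; simp

/-! ### Dynamics -/

/-- The marker property of a `ℤ^k`-action (written additively: `n +ᵥ x` is `T^n x`). -/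
def MarkerProperty (k : ℕ) (X : Type*) [TopologicalSpace X] [AddAction (Zk k) X] : Prop :=
  ∀ N : ℕ, 0 < N → ∃ U : Set X, IsOpen U ∧
    (∀ n : Zk k, n ≠ 0 → (∀ i, |n i| < (N : ℤ)) → Disjoint U ((fun x => n +ᵥ x) '' U)) ∧
    (⋃ n : Zk k, (fun x => n +ᵥ x) '' U) = Set.univ

/-- The dynamical metric `d_N(x,y) = max_{n ∈ [0,N)^k} d(T^n x, T^n y)`. -/
def dN (k : ℕ) {X : Type*} [MetricSpace X] [AddAction (Zk k) X] (N : ℕ) (x y : X) : ℝ :=
  ⨆ n : Fin k → Fin N, dist ((fun i => ((n i : ℕ) : ℤ) : Zk k) +ᵥ x)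
    ((fun i => ((n i : ℕ) : ℤ) : Zk k) +ᵥ y)

/-- `Widim_ε (X, d_N) ≤ D`: there is a finite simplicial complex of dimension at most `D` (finite
vertex set `Fin V`, set of simplices `K`; its points are the convex combinations of vertices
supported on a simplex) and a continuous map of `X` to it with fibres of `d_N`-diameter `< ε`. -/
def WidimLE (k : ℕ) (X : Type*) [MetricSpace X] [AddAction (Zk k) X] (ε : ℝ) (N D : ℕ) : Prop :=
  ∃ (V : ℕ) (K : Set (Finset (Fin V))),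
    (∀ s ∈ K, s.card ≤ D + 1) ∧ (∀ s ∈ K, ∀ t ⊆ s, t.Nonempty → t ∈ K) ∧
    ∃ f : X → (Fin V → ℝ), Continuous f ∧
      (∀ x, (∀ v, 0 ≤ f x v) ∧ ∑ v, f x v = 1 ∧
        Finset.univ.filter (fun v => f x v ≠ 0) ∈ K) ∧
      ∀ x y, f x = f y → dN k N x y < ε

/-- The width dimension `Widim_ε (X, d_N)`, with values in `[0,∞]`. -/
def widim (k : ℕ) (X : Type*) [MetricSpace X] [AddAction (Zk k) X] (ε : ℝ) (N : ℕ) : ℝ≥0∞ :=
  ⨅ (D : ℕ) (_ : WidimLE k X ε N D), (D : ℝ≥0∞)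

/-- Mean dimension (the limits exist; we use the `liminf` over `N`, and the supremum over `ε`). -/
def mdim (k : ℕ) (X : Type*) [MetricSpace X] [AddAction (Zk k) X] : ℝ≥0∞ :=
  ⨆ (ε : ℝ) (_ : 0 < ε), liminf (fun N : ℕ => widim k X ε N / (N : ℝ≥0∞) ^ k) atTop

/-! ### Band-limited functions -/

/-- The Fourier transform (as a tempered distribution) of `g` kills every Schwartz function that
vanishes on `Q` (a strong form of: the spectrum of `g` is contained in `Q`). -/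
def SBL {k : ℕ} (Q : Set (Rk k)) (g : Rk k → ℂ) : Prop :=
  ∀ φ : 𝓢(Rk k, ℂ), (∀ ξ ∈ Q, φ ξ = 0) → ∫ t, g t * (𝓕 φ) t = 0

/-- The space `B_1(Ω)`: continuous functions bounded by `1` whose Fourier transform is supported
in `Ω`: `⟨𝓕 f, φ⟩ = ∫ f · 𝓕 φ = 0` for all Schwartz `φ` with support in the complement of `Ω`. -/
def B1 {k : ℕ} (Ω : Set (Rk k)) : Set C(Rk k, ℂ) :=
  {f | (∀ t, ‖f t‖ ≤ 1) ∧
    ∀ φ : 𝓢(Rk k, ℂ), tsupport φ ⊆ Ωᶜ → ∫ t, f t * (𝓕 φ) t = 0}

/-- Semialgebraic subsets of `ℝ^k`: finite unions of sets given by finitely many polynomial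
equations and strict inequalities. -/
def IsSemialgebraic {k : ℕ} (S : Set (Rk k)) : Prop :=
  ∃ F : Finset (Finset (MvPolynomial (Fin k) ℝ) × Finset (MvPolynomial (Fin k) ℝ)),
    S = ⋃ c ∈ F, {x | (∀ p ∈ c.1, MvPolynomial.eval (fun i => x i) p = 0) ∧
      ∀ p ∈ c.2, 0 < MvPolynomial.eval (fun i => x i) p}

/-! ### Synthesis -/

/-- Superposition of the integer translates of `χ` with coefficients `a`. -/
def syn {k : ℕ} (χ : 𝓢(Rk k, ℂ)) (a : Zk k → ℂ) (t : Rk k) : ℂ :=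
  ∑' p : Zk k, a p * χ (t - zr p)

/-- The closed cube with centre `c` and half-side `r`. -/
def cubeC {k : ℕ} (c : Rk k) (r : ℝ) : Set (Rk k) := {ξ | ∀ i, |ξ i - c i| ≤ r}

/-- The open cube with centre `c` and half-side `r`. -/
def cubeO {k : ℕ} (c : Rk k) (r : ℝ) : Set (Rk k) := {ξ | ∀ i, |ξ i - c i| < r}

/-! ### Marker configurations -/

/-- Configurations of weights on `ℤ^k`: `s n = 1` means that there is no site at `n`, the sites (`s n < 1`) are
`M`-separated in the sup norm, and the full sites (`s n = 0`) are `R`-dense. -/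
def Conf {k : ℕ} (M R : ℕ) (s : Zk k → ℝ) : Prop :=
  (∀ n, 0 ≤ s n ∧ s n ≤ 1) ∧
  (∀ n m : Zk k, n ≠ m → s n < 1 → s m < 1 → ∃ i, (M : ℤ) ≤ |n i - m i|) ∧
  (∀ p : Zk k, ∃ n : Zk k, (∀ i, |n i - p i| ≤ (R : ℤ)) ∧ s n = 0)

/-- A system of weights `σ s n p ∈ [0,1]` (site `n`, point `p`) depending on the configuration `s`,
continuous, shift-equivariant and of finite range `R'`. -/
structure WSys (k : ℕ) (R' : ℕ) where
  /-- the weight of the point `p` in the tile of the site `n` -/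
  w : (Zk k → ℝ) → Zk k → Zk k → ℝ
  cont : ∀ n p, Continuous (fun s => w s n p)
  nonneg : ∀ s n p, 0 ≤ w s n p
  le_one : ∀ s n p, w s n p ≤ 1
  equiv : ∀ s m n p, w (fun j => s (j + m)) n p = w s (n + m) (p + m)
  range : ∀ s n p, w s n p ≠ 0 → ∀ i, |n i - p i| ≤ (R' : ℤ)

/-- The tiles of `σ` are `E`-separated for the configuration `s`. -/
def WSys.Sep {k R' : ℕ} (σ : WSys k R') (E : ℕ) (s : Zk k → ℝ) : Prop :=
  ∀ n n' p p', n ≠ n' → σ.w s n p ≠ 0 → σ.w s n' p' ≠ 0 → ∃ i, (E : ℤ) ≤ |p i - p' i|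

end

end Pfc1499
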